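import Mathlib
import Pool.Agent.NBL.Final3

/-!
# The robust converse: codimension `o(log N)`: targets

Goal (`T_RC2`): if for every `B > A` the inequality `I(ζ D) ≤ C N ^ (2B) I(D)` holds for all
Dirichlet polynomials `D` of length `N` with coefficients in a subspace of codimension at most
`w(N) = o(log N)`, then `ζ(1/2 + it) = O(|t| ^ (A + ε))`.
-/

set_option autoImplicit false

open MeasureTheory Complex Set Filter Topology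
open scoped ENNReal InnerProductSpace ComplexConjugate

namespace Pool.Agent.NBR

open Pool.Agent.NBL

/-- a polynomial in `2 ^ (-s)` on the critical line -/
noncomputable def pp (K : ℕ) (a : Fin (K + 1) → ℂ) (u : ℝ) : ℂ :=
  ∑ j : Fin (K + 1), a j * ((2 : ℂ) ^ (-(1 / 2 + u * I) : ℂ)) ^ (j : ℕ)

/-- a Dirichlet polynomial with coefficients indexed by `Fin N` -/
noncomputable def DF (N : ℕ) (c : Fin N → ℂ) (s : ℂ) : ℂ :=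
  ∑ i : Fin N, c i * (((i : ℕ) + 1 : ℕ) : ℂ) ^ (-s)

/-- RZ1: Remez's inequality on the circle.

Proof: put `z u = 2 ^ (-(1/2 + u I)) = 2^(-1/2) exp(-i u log 2)`; `pp K a u = p (z u)` for a
polynomial `p` of degree `≤ K`.  `F x = volume.real (E ∩ Iic x)` is monotone, 1-Lipschitz, from `0`
to `≥ m`; for `i = 0..K` choose `u i ∈ E` with
`i m / (K+1) ≤ F (u i) ≤ (i + 1/2) m / (K+1)` (the part of `E` where this holds has positive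
measure: intermediate value theorem for `F`).  Then
`|u i - u j| ≥ |F (u i) - F (u j)| ≥ |i - j| m / (2 (K+1))`.  Chords:
`|z (u i) - z (u j)| = 2^(-1/2) 2 |sin ((u i - u j) log 2 / 2)| ≥ 2^(-1/2) |u i - u j| / 4`
(`|u i - u j| ≤ 1`), `|z u - z (u j)| ≤ 2^(-1/2) 2`.  Lagrange interpolation
(`Lagrange.sum_basis`, `Lagrange.eq_interpolate_of_eval_eq`) at the `K+1` points:
`|p (z u)| ≤ S ∑ i, ∏ j ≠ i, 16 (K+1) / (m |i - j|) = S (16 (K+1)/m)^K ∑ i, 1/(i! (K-i)!)`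
`= S (32 (K+1)/m)^K / K!`, and `(K+1)^K / K! = (K+1)^(K+1)/(K+1)! ≤ e^(K+1) ≤ 3^(K+1)`. -/
def T_RZ1 : Prop := ∀ (K : ℕ) (a : Fin (K + 1) → ℂ) (T m S : ℝ) (E : Set ℝ), MeasurableSet E →
  E ⊆ Icc T (T + 1) → 0 < m → m ≤ volume.real E → (∀ u ∈ E, ‖pp K a u‖ ≤ S) →
    ∀ u : ℝ, ‖pp K a u‖ ≤ 3 * (96 / m) ^ K * S

/-- RZ2: the `L²` version (hypothesis T_RZ1).

Proof: let `S₀ = ‖pp K a u‖ > 0`, `θ = S₀ / (6 (192/m)^K)`, `E₁ = {t ∈ E | ‖pp K a t‖ ≤ θ}`.  If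
`volume.real E₁ ≥ m/2`, T_RZ1 for `E₁`, `m/2` gives `S₀ ≤ 3 (192/m)^K θ = S₀/2`, impossible.  So
`volume.real (E \ E₁) ≥ m/2` and there `‖pp‖² ≥ θ²`. -/
def T_RZ2 : Prop := ∀ (K : ℕ) (a : Fin (K + 1) → ℂ) (T m : ℝ) (E : Set ℝ), MeasurableSet E →
  E ⊆ Icc T (T + 1) → 0 < m → m ≤ volume.real E → ∀ u : ℝ,
    m / 2 * (‖pp K a u‖ / (6 * (192 / m) ^ K)) ^ 2 ≤ ∫ t in E, ‖pp K a t‖ ^ 2

/-- THK: if the bound fails then zeta is large on half of a short interval.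

Proof: `Pool.Agent.Lib.ThickFailure.result A hA` (file Lib/ThickFailure.lean; `Mu A` is its left
side) gives `B' > A` such that for `c = 1/2` there is `δ > 0` such that for arbitrarily large `T`
`volume.real {t ∈ Icc T (T + δ) | ‖ζ‖ ≤ T ^ B'} < δ/2`.  Divide `[T, T+δ]` into `n = ⌈10 δ⌉₊`
intervals of length `ρ = δ / n ≤ 1/10` (closed ones overlap in end points only): for one of them,
`[T', T' + ρ]`, the set `{t ∈ Icc T' (T'+ρ) | ‖ζ‖ ≤ T ^ B'}` has measure `< ρ/2`.  Take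
`B = (A + B')/2 < B'`; for large `T`, `T' ≤ T + δ` implies `T' ^ B ≤ T ^ B'`.
`E = {t ∈ Icc T' (T'+ρ) | T' ^ B ≤ ‖ζ‖}`. -/
def T_THK : Prop := ∀ A : ℝ, 0 ≤ A → ¬ Mu A → ∃ B ρ : ℝ, A < B ∧ 0 < ρ ∧ ρ ≤ 1 / 10 ∧
  ∀ T₀ : ℝ, ∃ T : ℝ, T₀ ≤ T ∧ ∃ E : Set ℝ, MeasurableSet E ∧ E ⊆ Icc T (T + ρ) ∧
    ρ / 2 ≤ volume.real E ∧ ∀ t ∈ E, T ^ B ≤ ‖riemannZeta (1 / 2 + t * I)‖

/-- MUL: multiplication by polynomials in `2 ^ (-s)`.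

Proof: `Φ a i = ∑ j, if 2 ^ j ∣ i + 1 ∧ (i + 1) / 2 ^ j ≤ M then a j * d ((i + 1) / 2 ^ j) else 0`
(linear in `a`); for each `j` the terms are `n = 2 ^ j m`, `1 ≤ m ≤ M`, all at most `2 ^ K M`, and
`n ^ (-s) = (2 ^ (-s)) ^ j m ^ (-s)` (`Complex.natCast_mul_natCast_cpow`). -/
def T_MUL : Prop := ∀ (K M : ℕ) (d : ℕ → ℂ),
  ∃ Φ : (Fin (K + 1) → ℂ) →ₗ[ℂ] (Fin (2 ^ K * M) → ℂ), ∀ (a : Fin (K + 1) → ℂ) (s : ℂ),
    DF (2 ^ K * M) (Φ a) s =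
      (∑ j : Fin (K + 1), a j * ((2 : ℂ) ^ (-s)) ^ (j : ℕ)) * DPl M d s

/-- TSV: the test vector as a Dirichlet polynomial.

Proof: `d = dcf (2 N) (xa (2 N) (et N t))` (`NBL.dcf` in NBL/Nb2.lean, `NBL.xa` in NBL/Full4.lean;
`NBM.et`, `NBM.tr` in NBM/Defs.lean): by `NBL.dcf_abel` `DPl (2 N + 1) d s = Nm (2 N) (xs ..) s`,
so the quotient by `s = 1/2 + u I` is `NBM.tr (2 N) (et N t) u` (`NBL.half_sq`); `NBM.p_LBK` gives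
the lower bound, and `NBM.p_PLN` (second part) with `NBM.p_LBM` (second part) the integral:
`2 π ‖et‖² ≤ 4 π` (`integral_eq_lintegral_of_nonneg_ae`). -/
def T_TSV : Prop := ∀ (N : ℕ) (t : ℝ), 20 ≤ N → |t| ≤ (N : ℝ) / 20 → ∃ d : ℕ → ℂ,
  (∀ u : ℝ, |u - t| ≤ 1 / 10 →
    1 / 16 ≤ ‖DPl (2 * N + 1) d (1 / 2 + u * I)‖ ^ 2 / (1 / 4 + u ^ 2)) ∧
  ∫ u : ℝ, ‖DPl (2 * N + 1) d (1 / 2 + u * I)‖ ^ 2 / (1 / 4 + u ^ 2) ≤ 4 * Real.pi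

/-- INT: integrability.

Proof: as in `NBL.QP_mellin`, `NBL.QB_mellin` (file NBL/Nb2.lean): `plancherel` shows that the
`lintegral` of the square is a finite multiple of `∫⁻ ‖G‖²` for an admissible `G` (`Adm.memLp`);
`DF N c = DPl N (xa N c)` (`NBL.fin_sum`, `NBL.xa_apply`). -/
def T_INT : Prop := ∀ (N : ℕ) (c : ℕ → ℂ),
  Integrable (fun t : ℝ => ‖DPl N c (1 / 2 + t * I)‖ ^ 2 / (1 / 4 + t ^ 2)) ∧
  Integrable (fun t : ℝ => ‖riemannZeta (1 / 2 + t * I) * DPl N c (1 / 2 + t * I)‖ ^ 2 /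
    (1 / 4 + t ^ 2))

/-- RC1: a large space of bad Dirichlet polynomials (hypotheses T_RZ2, T_MUL, T_TSV, T_INT).

Proof: `d` from T_TSV (`t = T`), `Φ` from T_MUL (`M = 2 N + 1`).  `DF (Φ a) s = pp K a u * DPl M d s`
on the line.  `pp K a` is continuous and periodic with the period `2 π / log 2`, so `‖pp K a‖` has a
maximum, at `u₀` say; `S = ‖pp K a u₀‖`; `S > 0` if `a ≠ 0` (a polynomial with infinitely many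
zeros vanishes; or: if `pp K a = 0` then `∑ a_j z^j = 0` on a circle).
`I(D) ≤ S² * 4 π` (T_TSV and `integral_mono`, T_INT).  `I(ζ D) ≥ ∫ over E ≥ (T^B)² (1/16) ∫ t in E,
‖pp K a t‖²`, and T_RZ2 at `u₀`. -/
def T_RC1 : Prop := ∀ (K N : ℕ) (T B m : ℝ) (E : Set ℝ), 20 ≤ N → 1 ≤ T → T ≤ (N : ℝ) / 20 →
  MeasurableSet E → E ⊆ Icc T (T + 1 / 10) → 0 < m → m ≤ volume.real E →
  (∀ t ∈ E, T ^ B ≤ ‖riemannZeta (1 / 2 + t * I)‖) →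
  ∃ Φ : (Fin (K + 1) → ℂ) →ₗ[ℂ] (Fin (2 ^ K * (2 * N + 1)) → ℂ),
    ∀ a : Fin (K + 1) → ℂ, a ≠ 0 → ∃ S : ℝ, 0 < S ∧
      ∫ t : ℝ, ‖DF _ (Φ a) (1 / 2 + t * I)‖ ^ 2 / (1 / 4 + t ^ 2) ≤ 4 * Real.pi * S ^ 2 ∧
      (T ^ B) ^ 2 * (1 / 16) * (m / 2 * (S / (6 * (192 / m) ^ K)) ^ 2) ≤
        ∫ t : ℝ, ‖riemannZeta (1 / 2 + t * I) * DF _ (Φ a) (1 / 2 + t * I)‖ ^ 2 / (1 / 4 + t ^ 2)

/-- RC2: the robust converse (hypotheses T_THK, T_RC1).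

Proof: suppose `¬ Mu A`; `B₀ > A`, `ρ` from T_THK, `m = ρ/2`, `B = (A + min B₀ (1/2))/2`,
`σ = B₀ - B > 0`, `C ≥ 1` for `B`.  `η > 0` with `2 η log (192/m) ≤ σ/2`, `η ≤ σ/2`, `η ≤ 1`;
`T` large from T_THK, `K = ⌊η log T⌋₊`, `N₁ = ⌈20 (T + 1)⌉₊`, `N = 2^K (2 N₁ + 1) ≤ 100 T^(1+η)`,
so `log N ≤ 3 log T` and `w N ≤ (η/4) log N < η log T < K + 1` for large `T`.  The subspace `V` for
`N` has dimension `> N - (K+1)`, so (rank-nullity for the composition of `Φ` with the quotient map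
by `V`) there is `a ≠ 0` with `Φ a ∈ V`.  Then
`T^(2 B₀) (1/16) (m/2) S²/(36 (192/m)^(2K)) ≤ I(ζ D) ≤ C N^(2B) I(D) ≤ C 100 T^(2B + 2Bη) 4π S²`,
`(192/m)^(2K) ≤ T^(σ/2)`, `2 B η ≤ η ≤ σ/2`, hence `T^σ ≤ const`: false for large `T`. -/
def T_RC2 : Prop := ∀ A : ℝ, 0 ≤ A → A < 1 / 2 → ∀ w : ℕ → ℝ,
  Tendsto (fun N : ℕ => w N / Real.log N) atTop (𝓝 0) →
  (∀ B : ℝ, A < B → B < 1 / 2 → ∃ C : ℝ, ∀ N : ℕ, ∃ V : Submodule ℂ (Fin N → ℂ),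
    (N : ℝ) - w N ≤ Module.finrank ℂ V ∧ ∀ c ∈ V,
      ∫ t : ℝ, ‖riemannZeta (1 / 2 + t * I) * DF N c (1 / 2 + t * I)‖ ^ 2 / (1 / 4 + t ^ 2) ≤
        C * (N : ℝ) ^ (2 * B) *
          ∫ t : ℝ, ‖DF N c (1 / 2 + t * I)‖ ^ 2 / (1 / 4 + t ^ 2)) → Mu A

end Pool.Agent.NBR
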