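import Pool.Agent.NBR.Targets

/-!
# Integrability of the squares
-/

set_option autoImplicit false

open MeasureTheory Complex Set Filter Topology
open scoped ENNReal InnerProductSpace ComplexConjugate

namespace Pool.Agent.NBR

open Pool.Agent.NBL

namespace INTb_

lemma int_sq {G : ℝ → ℂ} (hG : Adm G) {m : ℝ → ℂ} (hm : Continuous m)
    (h : ∀ τ : ℝ, mellin G (1 / 2 + τ * I) = m τ) : Integrable fun τ : ℝ => ‖m τ‖ ^ 2 := by
  have h1 := plancherel hG
  simp_rw [h] at h1
  have hfin : ∫⁻ t in Ioi (0 : ℝ), ‖G t‖ₑ ^ 2 < ⊤ := by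
    have h2 := (memLp_two_iff_integrable_sq_norm hG.1.aestronglyMeasurable).1 hG.memLp
    have h3 := h2.2
    unfold HasFiniteIntegral at h3
    refine lt_of_le_of_lt (lintegral_mono fun t => ?_) h3
    rw [← ofReal_norm, ← ofReal_norm, ← ENNReal.ofReal_pow (norm_nonneg _),
      norm_pow, norm_norm]
  refine ⟨(hm.norm.pow 2).aestronglyMeasurable, ?_⟩
  unfold HasFiniteIntegral
  have e : ∀ τ : ℝ, ‖‖m τ‖ ^ 2‖ₑ = ‖m τ‖ₑ ^ 2 := by
    intro τ
    rw [← ofReal_norm, ← ofReal_norm, ← ENNReal.ofReal_pow (norm_nonneg _),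
      norm_pow, norm_norm]
  simp_rw [e]
  rw [h1] at hfin
  by_contra hc
  rw [not_lt, top_le_iff] at hc
  rw [hc, ENNReal.mul_top (by
    rw [Ne, ENNReal.ofReal_eq_zero, not_le]
    positivity)] at hfin
  exact lt_irrefl _ hfin

end INTb_

theorem p_INTb : T_INT := by
  intro N c
  constructor
  · have h1 : ∀ t : ℝ, ‖DPl N c (1 / 2 + t * I)‖ ^ 2 / (1 / 4 + t ^ 2) =
        ‖DPl N c (1 / 2 + t * I) / (1 / 2 + t * I)‖ ^ 2 := by
      intro t
      rw [norm_div, div_pow, half_sq]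
    simp_rw [h1]
    refine INTb_.int_sq (G := fun t => ∑ k ∈ Finset.Icc 1 N, c k * ch k t)
      (Adm.sum _ fun k hk => (adm_ch (pos_of_mem hk)).mul _)
      ((DPl_cont N c).div (by fun_prop) half_ne) fun τ => ?_
    rw [mellin_sum (Finset.Icc 1 N) c (fun k hk => adm_ch (pos_of_mem hk)) (by simp)
      (by simp; norm_num)]
    unfold DPl
    rw [Finset.sum_div]
    refine Finset.sum_congr rfl fun k hk => ?_
    rw [ch_mellin (pos_of_mem hk) (by simp)]
    ring
  · have h1 : ∀ t : ℝ, ‖riemannZeta (1 / 2 + t * I) * DPl N c (1 / 2 + t * I)‖ ^ 2 /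
        (1 / 4 + t ^ 2) =
        ‖-(riemannZeta (1 / 2 + t * I) * DPl N c (1 / 2 + t * I) / (1 / 2 + t * I))‖ ^ 2 := by
      intro t
      rw [norm_neg, norm_div _ (1 / 2 + t * I : ℂ), div_pow, half_sq]
    simp_rw [h1]
    refine INTb_.int_sq (G := fun t => ∑ k ∈ Finset.Icc 1 N, c k * nb k t)
      (Adm.sum _ fun k hk => (adm_nb (pos_of_mem hk)).mul _)
      (((Pool.Agent.Lib.ThickFailure.continuous_zeta_line.mul (DPl_cont N c)).div
        (by fun_prop) half_ne).neg) fun τ => ?_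
    rw [mellin_sum (Finset.Icc 1 N) c (fun k hk => adm_nb (pos_of_mem hk)) (by simp)
      (by simp; norm_num)]
    unfold DPl
    rw [Finset.mul_sum, Finset.sum_div, ← Finset.sum_neg_distrib]
    refine Finset.sum_congr rfl fun k hk => ?_
    rw [nb_mellin (pos_of_mem hk) (by simp) (by simp; norm_num)]
    ring

end Pool.Agent.NBR
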