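import Pool.Agent.NBR.Targets

/-!
# MUL: multiplication by polynomials in `2 ^ (-s)`
-/

set_option autoImplicit false

open MeasureTheory Complex Set Filter Topology
open scoped ENNReal InnerProductSpace ComplexConjugate

namespace Pool.Agent.NBR

open Pool.Agent.NBL

namespace MUL_

theorem pow2 (s : ℂ) (j : ℕ) : (((2 ^ j : ℕ) : ℂ)) ^ (-s) = ((2 : ℂ) ^ (-s)) ^ j := by
  induction j with
  | zero => simp
  | succ j ih =>
    rw [pow_succ, Nat.cast_mul, Complex.natCast_mul_natCast_cpow, ih, pow_succ]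
    push_cast
    rfl

/-- the coefficient of `n ^ (-s)` in `(2 ^ (-s)) ^ j * DPl M d s` -/
noncomputable def cf (M : ℕ) (d : ℕ → ℂ) (j n : ℕ) : ℂ :=
  if 2 ^ j ∣ n ∧ n / 2 ^ j ≤ M then d (n / 2 ^ j) else 0

theorem cf_mul (M : ℕ) (d : ℕ → ℂ) (j k : ℕ) (hk : k ≤ M) : cf M d j (2 ^ j * k) = d k := by
  have h0 : 0 < 2 ^ j := by positivity
  unfold cf
  rw [Nat.mul_div_cancel_left k h0, if_pos ⟨dvd_mul_right _ _, hk⟩]

theorem key (K M : ℕ) (d : ℕ → ℂ) (s : ℂ) (j : ℕ) (hj : j ≤ K) :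
    ∑ n ∈ Finset.Icc 1 (2 ^ K * M), cf M d j n * (n : ℂ) ^ (-s) =
      ((2 : ℂ) ^ (-s)) ^ j * DPl M d s := by
  have h0 : 0 < 2 ^ j := by positivity
  have hsub : (Finset.Icc 1 M).image (fun k => 2 ^ j * k) ⊆ Finset.Icc 1 (2 ^ K * M) := by
    intro n hn
    obtain ⟨k, hk, rfl⟩ := Finset.mem_image.1 hn
    rw [Finset.mem_Icc] at hk ⊢
    exact ⟨Nat.mul_pos h0 hk.1, Nat.mul_le_mul (Nat.pow_le_pow_right (by norm_num) hj) hk.2⟩
  rw [← Finset.sum_subset hsub, Finset.sum_image]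
  · unfold DPl
    rw [Finset.mul_sum]
    refine Finset.sum_congr rfl fun k hk => ?_
    rw [cf_mul M d j k (Finset.mem_Icc.1 hk).2, Nat.cast_mul,
      Complex.natCast_mul_natCast_cpow, pow2]
    ring
  · intro k _ l _ hkl
    exact Nat.eq_of_mul_eq_mul_left h0 hkl
  · intro n hn hn2
    have h1 : cf M d j n = 0 := by
      unfold cf
      refine if_neg ?_
      rintro ⟨⟨k, rfl⟩, h3⟩
      rw [Nat.mul_div_cancel_left k h0] at h3
      refine hn2 (Finset.mem_image.2 ⟨k, Finset.mem_Icc.2 ⟨?_, h3⟩, rfl⟩)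
      rcases Nat.eq_zero_or_pos k with rfl | hk
      · simp at hn
      · exact hk
    rw [h1, zero_mul]

theorem fin_sum' (N : ℕ) (f : ℕ → ℂ) :
    ∑ i : Fin N, f ((i : ℕ) + 1) = ∑ n ∈ Finset.Icc 1 N, f n := by
  rw [Fin.sum_univ_eq_sum_range (fun i => f (i + 1)) N, Finset.range_eq_Ico,
    Finset.sum_Ico_add' f 0 N 1, zero_add]
  refine Finset.sum_congr ?_ fun _ _ => rfl
  ext n
  rw [Finset.mem_Ico, Finset.mem_Icc]
  omega

end MUL_

/-- **MUL** -/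
theorem p_MUL : T_MUL := by
  intro K M d
  refine ⟨Matrix.mulVecLin (Matrix.of fun (i : Fin (2 ^ K * M)) (j : Fin (K + 1)) =>
    MUL_.cf M d (j : ℕ) ((i : ℕ) + 1)), fun a s => ?_⟩
  unfold DF
  calc ∑ i : Fin (2 ^ K * M), (Matrix.mulVecLin (Matrix.of fun (i : Fin (2 ^ K * M))
        (j : Fin (K + 1)) => MUL_.cf M d (j : ℕ) ((i : ℕ) + 1))) a i *
          (((i : ℕ) + 1 : ℕ) : ℂ) ^ (-s)
      = ∑ i : Fin (2 ^ K * M), ∑ j : Fin (K + 1), a j *
          (MUL_.cf M d (j : ℕ) ((i : ℕ) + 1) * (((i : ℕ) + 1 : ℕ) : ℂ) ^ (-s)) := by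
        refine Finset.sum_congr rfl fun i _ => ?_
        rw [Matrix.mulVecLin_apply, Matrix.mulVec, dotProduct, Finset.sum_mul]
        refine Finset.sum_congr rfl fun j _ => ?_
        rw [Matrix.of_apply]
        ring
    _ = ∑ j : Fin (K + 1), a j * ∑ i : Fin (2 ^ K * M),
          (MUL_.cf M d (j : ℕ) ((i : ℕ) + 1) * (((i : ℕ) + 1 : ℕ) : ℂ) ^ (-s)) := by
        rw [Finset.sum_comm]
        refine Finset.sum_congr rfl fun j _ => ?_
        rw [Finset.mul_sum]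
    _ = ∑ j : Fin (K + 1), a j * (((2 : ℂ) ^ (-s)) ^ (j : ℕ) * DPl M d s) := by
        refine Finset.sum_congr rfl fun j _ => ?_
        rw [MUL_.fin_sum' _ (fun n => MUL_.cf M d (j : ℕ) n * (n : ℂ) ^ (-s)),
          MUL_.key K M d s j (Nat.lt_succ_iff.1 j.2)]
    _ = (∑ j : Fin (K + 1), a j * ((2 : ℂ) ^ (-s)) ^ (j : ℕ)) * DPl M d s := by
        rw [Finset.sum_mul]
        refine Finset.sum_congr rfl fun j _ => ?_
        ring

end Pool.Agent.NBR
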