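import Mathlib
import Pool.Agent.NBR.Targets

/-!
# RC1: a large space of bad Dirichlet polynomials
-/

set_option autoImplicit false

open MeasureTheory Complex Set Filter Topology
open scoped ENNReal InnerProductSpace ComplexConjugate

namespace Pool.Agent.NBR

open Pool.Agent.NBL

namespace RC1_

/-- the point `2 ^ (-(1/2 + u I))` -/
noncomputable def zz (u : ℝ) : ℂ := (2 : ℂ) ^ (-(1 / 2 + u * I) : ℂ)

lemma zz_eq (u : ℝ) : zz u = Complex.exp (Complex.log 2 * (-(1 / 2 + u * I))) := by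
  unfold zz
  rw [Complex.cpow_def_of_ne_zero two_ne_zero]

lemma log_two_eq : Complex.log 2 = ((Real.log 2 : ℝ) : ℂ) := by
  rw [Complex.ofReal_log (by norm_num)]
  norm_num

lemma zz_cont : Continuous zz := by
  have h : zz = fun u : ℝ => Complex.exp (Complex.log 2 * (-(1 / 2 + u * I))) := by
    funext u; exact zz_eq u
  rw [h]
  fun_prop

lemma zz_periodic (u : ℝ) : zz (u + 2 * Real.pi / Real.log 2) = zz u := by
  rw [zz_eq, zz_eq, Complex.exp_eq_exp_iff_exists_int]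
  refine ⟨-1, ?_⟩
  rw [log_two_eq]
  have h2 : ((Real.log 2 : ℝ) : ℂ) ≠ 0 := by
    exact_mod_cast (Real.log_pos one_lt_two).ne'
  push_cast
  field_simp
  ring

lemma zz_inj : Set.InjOn zz (Set.Ioo 0 1) := by
  intro u hu v hv h
  rw [zz_eq, zz_eq, log_two_eq] at h
  have hl : Real.log 2 ≤ 1 := by
    have := Real.log_two_lt_d9
    linarith
  have hl0 : 0 < Real.log 2 := Real.log_pos one_lt_two
  have him : ∀ w : ℝ, (((Real.log 2 : ℝ) : ℂ) * (-(1 / 2 + w * I))).im = -(Real.log 2 * w) := by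
    intro w
    rw [Complex.im_ofReal_mul]
    have h1 : (-(1 / 2 + (w : ℂ) * I)).im = -w := by simp
    rw [h1]
    ring
  have hb : ∀ w : ℝ, w ∈ Set.Ioo (0 : ℝ) 1 → -Real.pi < -(Real.log 2 * w) ∧
      -(Real.log 2 * w) ≤ Real.pi := by
    intro w hw
    have h1 : Real.log 2 * w < 1 := by nlinarith [hw.1, hw.2]
    have h2 : 0 < Real.log 2 * w := mul_pos hl0 hw.1
    have h3 := Real.pi_gt_three
    constructor <;> linarith
  have h' := Complex.exp_inj_of_neg_pi_lt_of_le_pi (by rw [him]; exact (hb u hu).1)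
    (by rw [him]; exact (hb u hu).2) (by rw [him]; exact (hb v hv).1)
    (by rw [him]; exact (hb v hv).2) h
  have h3 := congrArg Complex.im h'
  rw [him, him] at h3
  have h4 : Real.log 2 * u = Real.log 2 * v := by linarith
  exact mul_left_cancel₀ hl0.ne' h4

lemma pp_eq (K : ℕ) (a : Fin (K + 1) → ℂ) (u : ℝ) :
    pp K a u = ∑ j : Fin (K + 1), a j * zz u ^ (j : ℕ) := rfl

lemma pp_cont (K : ℕ) (a : Fin (K + 1) → ℂ) : Continuous (pp K a) := by
  have h : pp K a = fun u => ∑ j : Fin (K + 1), a j * zz u ^ (j : ℕ) := rfl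
  rw [h]
  exact continuous_finsetSum _ fun j _ => continuous_const.mul (zz_cont.pow _)

lemma pp_max (K : ℕ) (a : Fin (K + 1) → ℂ) : ∃ u₀ : ℝ, ∀ u : ℝ, ‖pp K a u‖ ≤ ‖pp K a u₀‖ := by
  have hP : 0 < 2 * Real.pi / Real.log 2 :=
    div_pos (by positivity) (Real.log_pos one_lt_two)
  have hper : Function.Periodic (fun u : ℝ => ‖pp K a u‖) (2 * Real.pi / Real.log 2) := by
    intro u
    show ‖pp K a (u + 2 * Real.pi / Real.log 2)‖ = ‖pp K a u‖
    rw [pp_eq, pp_eq, zz_periodic]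
  obtain ⟨u₀, -, hu₀⟩ := (isCompact_Icc (a := (0 : ℝ)) (b := 2 * Real.pi / Real.log 2)
    ).exists_isMaxOn ⟨0, ⟨le_refl _, hP.le⟩⟩ (pp_cont K a).norm.continuousOn
  refine ⟨u₀, fun u => ?_⟩
  obtain ⟨v, hv, hv2⟩ := hper.exists_mem_Ico₀ hP u
  have h1 : ‖pp K a u‖ = ‖pp K a v‖ := hv2
  rw [h1]
  exact hu₀ ⟨hv.1, hv.2.le⟩

lemma pp_pos (K : ℕ) (a : Fin (K + 1) → ℂ) (ha : a ≠ 0) : ∃ u : ℝ, pp K a u ≠ 0 := by
  by_contra hcon
  push Not at hcon
  apply ha
  set p : Polynomial ℂ := ∑ j : Fin (K + 1), Polynomial.C (a j) * Polynomial.X ^ (j : ℕ) with hp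
  have hev : ∀ z : ℂ, p.eval z = ∑ j : Fin (K + 1), a j * z ^ (j : ℕ) := by
    intro z
    rw [hp, Polynomial.eval_finsetSum]
    refine Finset.sum_congr rfl fun j _ => ?_
    simp
  have hinf : Set.Infinite {z | p.IsRoot z} := by
    refine Set.Infinite.mono ?_ ((Set.Ioo_infinite (zero_lt_one (α := ℝ))).image zz_inj)
    rintro z ⟨u, -, rfl⟩
    show p.eval (zz u) = 0
    rw [hev, ← pp_eq]
    exact hcon u
  have hp0 : p = 0 := Polynomial.eq_zero_of_infinite_isRoot p hinf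
  funext i
  have hc : p.coeff (i : ℕ) = a i := by
    rw [hp, Polynomial.finsetSum_coeff]
    rw [Finset.sum_eq_single i]
    · simp
    · intro j _ hj
      rw [Polynomial.coeff_C_mul, Polynomial.coeff_X_pow, if_neg, mul_zero]
      intro h
      exact hj (Fin.ext h.symm)
    · intro h
      exact absurd (Finset.mem_univ i) h
  rw [← hc, hp0]
  simp

lemma DF_eq (N : ℕ) (c : Fin N → ℂ) (s : ℂ) : DF N c s = DPl N (xa N c) s := by
  unfold DF DPl
  rw [fin_sum fun n => xa N c n * (n : ℂ) ^ (-s)]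
  exact Finset.sum_congr rfl fun i _ => by rw [xa_apply]

end RC1_

open RC1_ in
theorem p_RC1 (hRZ2 : T_RZ2) (hMUL : T_MUL) (hTSV : T_TSV) (hINT : T_INT) : T_RC1 := by
  intro K N T B m E hN hT hTN hEm hE hm hmE hz
  obtain ⟨d, hd1, hd2⟩ := hTSV N T hN (by rw [abs_of_nonneg (by linarith)]; exact hTN)
  obtain ⟨Φ, hΦ⟩ := hMUL K (2 * N + 1) d
  refine ⟨Φ, fun a ha => ?_⟩
  obtain ⟨u₀, hu₀⟩ := pp_max K a
  obtain ⟨u₁, hu₁⟩ := pp_pos K a ha
  have hS : 0 < ‖pp K a u₀‖ := lt_of_lt_of_le (norm_pos_iff.mpr hu₁) (hu₀ u₁)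
  have hfac : ∀ t : ℝ, DF _ (Φ a) (1 / 2 + t * I) =
      pp K a t * DPl (2 * N + 1) d (1 / 2 + t * I) := fun t => hΦ a _
  have hden : ∀ t : ℝ, 0 < 1 / 4 + t ^ 2 := fun t => by positivity
  refine ⟨‖pp K a u₀‖, hS, ?_, ?_⟩
  · have h1 : ∫ t : ℝ, ‖DF _ (Φ a) (1 / 2 + t * I)‖ ^ 2 / (1 / 4 + t ^ 2) ≤
        ∫ t : ℝ, ‖pp K a u₀‖ ^ 2 *
          (‖DPl (2 * N + 1) d (1 / 2 + t * I)‖ ^ 2 / (1 / 4 + t ^ 2)) := by
      refine integral_mono_of_nonneg ?_ ((hINT (2 * N + 1) d).1.const_mul _) ?_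
      · exact Eventually.of_forall fun t => div_nonneg (sq_nonneg _) (hden t).le
      · refine Eventually.of_forall fun t => ?_
        show ‖DF _ (Φ a) (1 / 2 + t * I)‖ ^ 2 / (1 / 4 + t ^ 2) ≤ ‖pp K a u₀‖ ^ 2 *
          (‖DPl (2 * N + 1) d (1 / 2 + t * I)‖ ^ 2 / (1 / 4 + t ^ 2))
        rw [hfac, norm_mul, mul_pow, mul_div_assoc]
        refine mul_le_mul_of_nonneg_right ?_ (div_nonneg (sq_nonneg _) (hden t).le)
        exact pow_le_pow_left₀ (norm_nonneg _) (hu₀ t) 2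
    rw [integral_const_mul] at h1
    refine h1.trans ?_
    rw [mul_comm (4 * Real.pi)]
    exact mul_le_mul_of_nonneg_left hd2 (sq_nonneg _)
  · have hint : Integrable (fun t : ℝ => ‖riemannZeta (1 / 2 + t * I) *
        DF _ (Φ a) (1 / 2 + t * I)‖ ^ 2 / (1 / 4 + t ^ 2)) := by
      have := (hINT (2 ^ K * (2 * N + 1)) (xa _ (Φ a))).2
      simpa only [DF_eq] using this
    have h0 : ∀ t : ℝ, 0 ≤ ‖riemannZeta (1 / 2 + t * I) *
        DF _ (Φ a) (1 / 2 + t * I)‖ ^ 2 / (1 / 4 + t ^ 2) :=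
      fun t => div_nonneg (sq_nonneg _) (hden t).le
    have hTB : 0 ≤ T ^ B := Real.rpow_nonneg (by linarith) _
    have hEI : E ⊆ Icc T (T + 1) := fun t ht => ⟨(hE ht).1, by have := (hE ht).2; linarith⟩
    have h1 := hRZ2 K a T m E hEm hEI hm hmE u₀
    have h2 : ∫ t in E, (T ^ B) ^ 2 * (1 / 16) * ‖pp K a t‖ ^ 2 ≤
        ∫ t in E, ‖riemannZeta (1 / 2 + t * I) *
          DF _ (Φ a) (1 / 2 + t * I)‖ ^ 2 / (1 / 4 + t ^ 2) := by
      refine setIntegral_mono_on ?_ hint.integrableOn hEm ?_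
      · have hc : Continuous fun t : ℝ => (T ^ B) ^ 2 * (1 / 16) * ‖pp K a t‖ ^ 2 :=
          continuous_const.mul ((pp_cont K a).norm.pow 2)
        exact (hc.integrableOn_Icc (a := T) (b := T + 1)).mono_set hEI
      · intro t ht
        have ht1 : |t - T| ≤ 1 / 10 := by
          have h3 := hE ht
          rw [abs_le]
          constructor <;> linarith [h3.1, h3.2]
        have h4 := hd1 t ht1
        have h5 := hz t ht
        rw [hfac, norm_mul, norm_mul, mul_pow, mul_pow]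
        have h6 : (T ^ B) ^ 2 ≤ ‖riemannZeta (1 / 2 + t * I)‖ ^ 2 :=
          pow_le_pow_left₀ hTB h5 2
        calc (T ^ B) ^ 2 * (1 / 16) * ‖pp K a t‖ ^ 2
            = ((T ^ B) ^ 2 * ‖pp K a t‖ ^ 2) * (1 / 16) := by ring
          _ ≤ (‖riemannZeta (1 / 2 + t * I)‖ ^ 2 * ‖pp K a t‖ ^ 2) *
              (‖DPl (2 * N + 1) d (1 / 2 + t * I)‖ ^ 2 / (1 / 4 + t ^ 2)) := by
            refine mul_le_mul (mul_le_mul_of_nonneg_right h6 (sq_nonneg _)) h4 (by norm_num)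
              (by positivity)
          _ = _ := by ring
    have h3 : ∫ t in E, ‖riemannZeta (1 / 2 + t * I) *
          DF _ (Φ a) (1 / 2 + t * I)‖ ^ 2 / (1 / 4 + t ^ 2) ≤
        ∫ t : ℝ, ‖riemannZeta (1 / 2 + t * I) *
          DF _ (Φ a) (1 / 2 + t * I)‖ ^ 2 / (1 / 4 + t ^ 2) :=
      setIntegral_le_integral hint (Eventually.of_forall h0)
    rw [integral_const_mul] at h2
    refine le_trans ?_ (h2.trans h3)
    exact mul_le_mul_of_nonneg_left h1 (by positivity)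

end Pool.Agent.NBR
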