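import Pool.Agent.NBR.Targets

/-!
# RC2: the robust converse, choice of the parameters
-/

set_option autoImplicit false

open MeasureTheory Complex Set Filter Topology
open scoped ENNReal InnerProductSpace ComplexConjugate

namespace Pool.Agent.NBR

open Pool.Agent.NBL

namespace RC2_

lemma exists_mem (K N : ℕ) (Φ : (Fin (K + 1) → ℂ) →ₗ[ℂ] (Fin N → ℂ))
    (V : Submodule ℂ (Fin N → ℂ)) (w : ℝ) (hV : (N : ℝ) - w ≤ Module.finrank ℂ V)
    (hw : w < K + 1) : ∃ a : Fin (K + 1) → ℂ, a ≠ 0 ∧ Φ a ∈ V := by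
  have h1 := Submodule.finrank_quotient_add_finrank V
  rw [Module.finrank_fin_fun] at h1
  have h2 : Module.finrank ℂ ((Fin N → ℂ) ⧸ V) < Module.finrank ℂ (Fin (K + 1) → ℂ) := by
    rw [Module.finrank_fin_fun]
    have h3 : ((Module.finrank ℂ ((Fin N → ℂ) ⧸ V) : ℕ) : ℝ) + Module.finrank ℂ V = N := by
      exact_mod_cast h1
    have h4 : ((Module.finrank ℂ ((Fin N → ℂ) ⧸ V) : ℕ) : ℝ) < K + 1 := by linarith
    exact_mod_cast h4
  have h5 : LinearMap.ker (V.mkQ ∘ₗ Φ) ≠ ⊥ := LinearMap.ker_ne_bot_of_finrank_lt h2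
  obtain ⟨a, ha, ha0⟩ := Submodule.exists_mem_ne_zero_of_ne_bot h5
  refine ⟨a, ha0, ?_⟩
  simpa using ha

lemma pow_le (b T η : ℝ) (K : ℕ) (hb : 1 ≤ b) (hT : 0 < T) (hK : (K : ℝ) ≤ η * Real.log T) :
    b ^ K ≤ T ^ (η * Real.log b) := by
  have hb0 : 0 < b := by linarith
  rw [Real.rpow_def_of_pos hT, ← Real.rpow_natCast b K, Real.rpow_def_of_pos hb0]
  apply Real.exp_le_exp.2
  nlinarith [mul_le_mul_of_nonneg_left hK (Real.log_nonneg hb)]

/-- the final contradiction -/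
lemma final (T B B0 σ m C S P Z J I : ℝ) (hT : 1 ≤ T) (hm : 0 < m) (hS : 0 < S) (hC : 0 ≤ C)
    (hσ : σ = B0 - B) (hP : 0 < P) (hPT : P ^ 2 ≤ T ^ (σ / 2))
    (hZ : Z ≤ 100 * T ^ (2 * B + σ / 2)) (hZ0 : 0 ≤ Z)
    (h1 : (T ^ B0) ^ 2 * (1 / 16) * (m / 2 * (S / (6 * P)) ^ 2) ≤ J)
    (h2 : J ≤ C * Z * I) (h3 : I ≤ 4 * Real.pi * S ^ 2)
    (h4 : 460800 * Real.pi * C / m < T ^ σ) : False := by
  have hT0 : 0 < T := by linarith
  have e1 : (T ^ B0) ^ 2 * (1 / 16) * (m / 2 * (S / (6 * P)) ^ 2) =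
      (T ^ B0) ^ 2 * m * S ^ 2 / (1152 * P ^ 2) := by
    field_simp
    ring
  have h5 : (T ^ B0) ^ 2 * m * S ^ 2 / (1152 * P ^ 2) ≤ C * Z * (4 * Real.pi * S ^ 2) := by
    rw [← e1]
    exact h1.trans (h2.trans (mul_le_mul_of_nonneg_left h3 (mul_nonneg hC hZ0)))
  have h6 : (T ^ B0) ^ 2 * m * S ^ 2 ≤ C * Z * (4 * Real.pi * S ^ 2) * (1152 * P ^ 2) := by
    rwa [div_le_iff₀ (by positivity)] at h5
  have h7 : (T ^ B0) ^ 2 * m ≤ 4608 * Real.pi * C * (Z * P ^ 2) := by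
    have hS2 : 0 < S ^ 2 := by positivity
    refine le_of_mul_le_mul_right ?_ hS2
    calc (T ^ B0) ^ 2 * m * S ^ 2 ≤ C * Z * (4 * Real.pi * S ^ 2) * (1152 * P ^ 2) := h6
      _ = 4608 * Real.pi * C * (Z * P ^ 2) * S ^ 2 := by ring
  have h8 : Z * P ^ 2 ≤ 100 * T ^ (2 * B + σ) := by
    calc Z * P ^ 2 ≤ (100 * T ^ (2 * B + σ / 2)) * T ^ (σ / 2) :=
          mul_le_mul hZ hPT (by positivity) (by positivity)
      _ = 100 * T ^ (2 * B + σ) := by
          rw [mul_assoc, ← Real.rpow_add hT0]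
          congr 2
          ring
  have h9 : (T ^ B0) ^ 2 = T ^ (2 * B + σ) * T ^ σ := by
    rw [← Real.rpow_natCast (T ^ B0) 2, ← Real.rpow_mul hT0.le, ← Real.rpow_add hT0]
    congr 1
    rw [hσ]
    push_cast
    ring
  have h10 : T ^ (2 * B + σ) * (T ^ σ * m) ≤
      T ^ (2 * B + σ) * (460800 * Real.pi * C) := by
    calc T ^ (2 * B + σ) * (T ^ σ * m) = (T ^ B0) ^ 2 * m := by rw [h9]; ring
      _ ≤ 4608 * Real.pi * C * (Z * P ^ 2) := h7
      _ ≤ 4608 * Real.pi * C * (100 * T ^ (2 * B + σ)) :=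
          mul_le_mul_of_nonneg_left h8 (by positivity)
      _ = T ^ (2 * B + σ) * (460800 * Real.pi * C) := by ring
  have h11 : T ^ σ * m ≤ 460800 * Real.pi * C :=
    le_of_mul_le_mul_left h10 (Real.rpow_pos_of_pos hT0 _)
  rw [div_lt_iff₀ hm] at h4
  exact absurd h11 (not_le.2 h4)

end RC2_

open RC2_ in
/-- RC2 -/
theorem p_RC2 (h_THK : T_THK) (h_RC1 : T_RC1) : T_RC2 := by
  intro A hA0 hA w hw hyp
  by_contra hMu
  obtain ⟨B0, ρ, hB0, hρ, hρ1, hthk⟩ := h_THK A hA0 hMu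
  have hm : 0 < ρ / 2 := by linarith
  obtain ⟨B, hB⟩ : ∃ B, B = (A + min B0 (1 / 2)) / 2 := ⟨_, rfl⟩
  have hmin : A < min B0 (1 / 2) := lt_min hB0 hA
  have hAB : A < B := by linarith
  have hB12 : B < 1 / 2 := by
    have := min_le_right B0 (1 / 2)
    linarith
  have hBB0 : B < B0 := by
    have := min_le_left B0 (1 / 2)
    linarith
  have hBpos : 0 < B := by linarith
  obtain ⟨σ, hσ⟩ : ∃ σ, σ = B0 - B := ⟨_, rfl⟩
  have hσ0 : 0 < σ := by linarith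
  obtain ⟨C0, hC0⟩ := hyp B hAB hB12
  obtain ⟨C, hC⟩ : ∃ C, C = max C0 1 := ⟨_, rfl⟩
  have hC1 : 1 ≤ C := by rw [hC]; exact le_max_right _ _
  have hCC : C0 ≤ C := by rw [hC]; exact le_max_left _ _
  have hq : 1 ≤ 192 / (ρ / 2) := by
    rw [le_div_iff₀ hm]
    linarith
  have hlq : 0 ≤ Real.log (192 / (ρ / 2)) := Real.log_nonneg hq
  -- the exponent
  obtain ⟨η, hη0, hη1, hησ, hηq⟩ : ∃ η : ℝ, 0 < η ∧ η ≤ 1 ∧ η ≤ σ / 2 ∧
      η * Real.log (192 / (ρ / 2)) * 2 ≤ σ / 2 := by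
    refine ⟨min (min 1 (σ / 2)) (σ / 4 / (Real.log (192 / (ρ / 2)) + 1)), ?_, ?_, ?_, ?_⟩
    · refine lt_min (lt_min one_pos (by linarith)) (by positivity)
    · exact (min_le_left _ _).trans (min_le_left _ _)
    · exact (min_le_left _ _).trans (min_le_right _ _)
    · have h1 : min (min 1 (σ / 2)) (σ / 4 / (Real.log (192 / (ρ / 2)) + 1)) ≤
          σ / 4 / (Real.log (192 / (ρ / 2)) + 1) := min_le_right _ _
      have h2 : σ / 4 / (Real.log (192 / (ρ / 2)) + 1) * (Real.log (192 / (ρ / 2)) + 1) =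
          σ / 4 := div_mul_cancel₀ _ (ne_of_gt (by linarith))
      have h3 : 0 ≤ σ / 4 / (Real.log (192 / (ρ / 2)) + 1) := by positivity
      have h4 := mul_le_mul_of_nonneg_right h1 hlq
      nlinarith
  -- the codimension
  obtain ⟨Nw, hNw⟩ : ∃ Nw : ℕ, ∀ n : ℕ, Nw ≤ n → w n / Real.log n < η / 4 := by
    have h1 : ∀ᶠ n : ℕ in atTop, w n / Real.log n < η / 4 :=
      hw.eventually (gt_mem_nhds (by positivity))
    exact eventually_atTop.1 h1
  -- the threshold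
  obtain ⟨T1, hT1⟩ : ∃ T1 : ℝ, ∀ T : ℝ, T1 ≤ T → 460800 * Real.pi * C / (ρ / 2) < T ^ σ := by
    have h1 := (tendsto_rpow_atTop hσ0).eventually_gt_atTop (460800 * Real.pi * C / (ρ / 2))
    exact eventually_atTop.1 h1
  obtain ⟨T, hT, E, hEm, hE, hEv, hEz⟩ := hthk (max (max 100 T1) Nw)
  have hT100 : 100 ≤ T := ((le_max_left _ _).trans (le_max_left _ _)).trans hT
  have hTT1 : T1 ≤ T := ((le_max_right _ _).trans (le_max_left _ _)).trans hT
  have hTNw : (Nw : ℝ) ≤ T := (le_max_right _ _).trans hT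
  have hT0 : 0 < T := by linarith
  have hT1' : 1 ≤ T := by linarith
  have hlT : 0 < Real.log T := Real.log_pos (by linarith)
  obtain ⟨K, hK⟩ : ∃ K : ℕ, K = ⌊η * Real.log T⌋₊ := ⟨_, rfl⟩
  have hK1 : (K : ℝ) ≤ η * Real.log T := by
    rw [hK]
    exact Nat.floor_le (by positivity)
  have hK2 : η * Real.log T < K + 1 := by
    rw [hK]
    exact Nat.lt_floor_add_one _
  obtain ⟨N1, hN1⟩ : ∃ N1 : ℕ, N1 = ⌈20 * (T + 1)⌉₊ := ⟨_, rfl⟩
  have hN1a : 20 * (T + 1) ≤ N1 := by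
    rw [hN1]
    exact Nat.le_ceil _
  have hN1b : (N1 : ℝ) < 20 * (T + 1) + 1 := by
    rw [hN1]
    exact Nat.ceil_lt_add_one (by positivity)
  have hN20 : 20 ≤ N1 := by
    have : (20 : ℝ) ≤ N1 := by linarith
    exact_mod_cast this
  obtain ⟨Φ, hΦ⟩ := h_RC1 K N1 T B0 (ρ / 2) E hN20 hT1' (by linarith) hEm
    (hE.trans (Icc_subset_Icc_right (by linarith))) hm hEv hEz
  obtain ⟨V, hV, hVI⟩ := hC0 (2 ^ K * (2 * N1 + 1))
  obtain ⟨n, hn⟩ : ∃ n : ℕ, n = 2 ^ K * (2 * N1 + 1) := ⟨_, rfl⟩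
  have hcast : ((2 ^ K * (2 * N1 + 1) : ℕ) : ℝ) = n := by rw [hn]
  have hnT : (40 : ℝ) * T ≤ n := by
    have h1 : 2 * N1 + 1 ≤ n := by
      rw [hn]
      exact Nat.le_mul_of_pos_left _ (by positivity)
    have h2 : ((2 * N1 + 1 : ℕ) : ℝ) ≤ n := by exact_mod_cast h1
    push_cast at h2
    linarith
  have h2K : (2 : ℝ) ^ K ≤ T ^ η := by
    have h1 := pow_le 2 T η K (by norm_num) hT0 hK1
    refine h1.trans (Real.rpow_le_rpow_of_exponent_le hT1' ?_)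
    have h2 : Real.log 2 ≤ 1 := by
      have := Real.log_two_lt_d9
      linarith
    nlinarith
  have hn2 : (n : ℝ) ≤ 100 * T ^ (1 + η) := by
    have h1 : (n : ℝ) = (2 : ℝ) ^ K * (2 * N1 + 1) := by
      rw [hn]
      push_cast
      ring
    rw [h1, Real.rpow_add hT0, Real.rpow_one]
    have h2 : (2 * (N1 : ℝ) + 1) ≤ 100 * T := by linarith
    calc (2 : ℝ) ^ K * (2 * N1 + 1) ≤ T ^ η * (100 * T) :=
          mul_le_mul h2K h2 (by positivity) (by positivity)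
      _ = 100 * (T * T ^ η) := by ring
  have hlogn : Real.log n ≤ 3 * Real.log T := by
    have h1 : Real.log n ≤ Real.log (100 * T ^ (1 + η)) :=
      Real.log_le_log (by linarith) hn2
    rw [Real.log_mul (by norm_num) (by positivity), Real.log_rpow hT0] at h1
    have h2 : Real.log 100 ≤ Real.log T := Real.log_le_log (by norm_num) hT100
    nlinarith
  have hwn : w n < K + 1 := by
    have h1 : Nw ≤ n := by
      have : (Nw : ℝ) ≤ n := by linarith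
      exact_mod_cast this
    have h2 := hNw n h1
    have h3 : 0 < Real.log n := Real.log_pos (by linarith)
    rw [div_lt_iff₀ h3] at h2
    nlinarith
  obtain ⟨a, ha0, haV⟩ := exists_mem K _ Φ V (w (2 ^ K * (2 * N1 + 1))) hV
    (by rw [← hn]; exact hwn)
  obtain ⟨S, hS, hS1, hS2⟩ := hΦ a ha0
  have hI := hVI (Φ a) haV
  rw [hcast] at hI
  have hZ0 : (0 : ℝ) ≤ (n : ℝ) ^ (2 * B) := by positivity
  have hZ : (n : ℝ) ^ (2 * B) ≤ 100 * T ^ (2 * B + σ / 2) := by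
    calc (n : ℝ) ^ (2 * B) ≤ (100 * T ^ (1 + η)) ^ (2 * B) :=
          Real.rpow_le_rpow (by positivity) hn2 (by linarith)
      _ = 100 ^ (2 * B) * T ^ ((1 + η) * (2 * B)) := by
          rw [Real.mul_rpow (by norm_num) (by positivity), ← Real.rpow_mul hT0.le]
      _ ≤ 100 * T ^ (2 * B + σ / 2) := by
          refine mul_le_mul ?_ (Real.rpow_le_rpow_of_exponent_le hT1' ?_) (by positivity)
            (by norm_num)
          · calc (100 : ℝ) ^ (2 * B) ≤ 100 ^ (1 : ℝ) :=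
                  Real.rpow_le_rpow_of_exponent_le (by norm_num) (by linarith)
              _ = 100 := Real.rpow_one _
          · nlinarith
  have hI0 : 0 ≤ ∫ t : ℝ,
      ‖DF (2 ^ K * (2 * N1 + 1)) (Φ a) (1 / 2 + t * I)‖ ^ 2 / (1 / 4 + t ^ 2) :=
    integral_nonneg fun t => by positivity
  refine final T B B0 σ (ρ / 2) C S ((192 / (ρ / 2)) ^ K) ((n : ℝ) ^ (2 * B)) _ _ hT1' hm hS
    (by linarith) hσ (by positivity) ?_ hZ hZ0 hS2 ?_ hS1 (hT1 T hTT1)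
  · have h1 := pow_le (192 / (ρ / 2)) T η K hq hT0 hK1
    calc ((192 / (ρ / 2)) ^ K) ^ 2 ≤ (T ^ (η * Real.log (192 / (ρ / 2)))) ^ 2 :=
          pow_le_pow_left₀ (by positivity) h1 2
      _ = T ^ (η * Real.log (192 / (ρ / 2)) * 2) := by
          rw [← Real.rpow_natCast, ← Real.rpow_mul hT0.le]
          norm_num
      _ ≤ T ^ (σ / 2) := Real.rpow_le_rpow_of_exponent_le hT1' hηq
  · exact hI.trans (mul_le_mul_of_nonneg_right (mul_le_mul_of_nonneg_right hCC hZ0) hI0)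

end Pool.Agent.NBR
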