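import Pool.Agent.NBR.Targets

/-!
# NBR, target RZ1: Remez's inequality on the circle
-/

set_option autoImplicit false

open MeasureTheory Complex Set Filter Topology
open scoped ENNReal InnerProductSpace ComplexConjugate

namespace Pool.Agent.NBR

open Pool.Agent.NBL

namespace RZ1_

theorem F_diff {E : Set ℝ} (hE : MeasurableSet E) (hf : volume E ≠ ∞) {x y : ℝ} (h : x ≤ y) :
    volume.real (E ∩ Iic y) = volume.real (E ∩ Iic x) + volume.real (E ∩ Ioc x y) := by
  have h1 : E ∩ Iic y = (E ∩ Iic x) ∪ (E ∩ Ioc x y) := by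
    rw [← inter_union_distrib_left, Iic_union_Ioc_eq_Iic h]
  rw [h1, measureReal_union]
  · rw [Set.disjoint_left]
    intro z h2 h3
    exact absurd h2.2 (not_le.2 h3.2.1)
  · exact hE.inter measurableSet_Ioc

theorem F_le {E : Set ℝ} {x y : ℝ} (h : x ≤ y) : volume.real (E ∩ Ioc x y) ≤ y - x := by
  have h1 : volume.real (E ∩ Ioc x y) ≤ volume.real (Ioc x y) :=
    measureReal_mono inter_subset_right (by simp)
  rwa [Real.volume_real_Ioc_of_le h] at h1

theorem F_cont {E : Set ℝ} (hE : MeasurableSet E) (hf : volume E ≠ ∞) :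
    Continuous fun x => volume.real (E ∩ Iic x) := by
  have h : LipschitzWith 1 fun x => volume.real (E ∩ Iic x) := by
    apply LipschitzWith.of_le_add
    intro x y
    rcases le_total x y with h | h
    · have h1 := F_diff hE hf h
      have h2 : 0 ≤ volume.real (E ∩ Ioc x y) := measureReal_nonneg
      have h3 : 0 ≤ dist x y := dist_nonneg
      linarith
    · have h1 := F_diff hE hf h
      have h2 := F_le (E := E) h
      rw [Real.dist_eq, abs_of_nonneg (by linarith)]
      linarith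
  exact h.continuous

/-- separated points in a set of positive measure -/
theorem pts {E : Set ℝ} (hE : MeasurableSet E) {T m : ℝ} (hET : E ⊆ Icc T (T + 1)) (hm : 0 < m)
    (hmE : m ≤ volume.real E) (K : ℕ) : ∃ x : ℕ → ℝ, ∀ i ∈ Finset.range (K + 1), x i ∈ E ∧
      ∀ j ∈ Finset.range (K + 1), |(i : ℝ) - j| * (m / (2 * (K + 1))) ≤ |x i - x j| := by
  have hf : volume E ≠ ∞ := measure_ne_top_of_subset hET (by simp)
  have hK : (0 : ℝ) < K + 1 := by positivity
  have F0 : volume.real (E ∩ Iic T) ≤ 0 := by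
    have h1 : E ∩ Iic T ⊆ {T} := by
      intro z hz
      exact le_antisymm hz.2 (hET hz.1).1
    have h2 : volume.real (E ∩ Iic T) ≤ volume.real ({T} : Set ℝ) :=
      measureReal_mono h1 (by simp)
    simpa [measureReal_def] using h2
  have F1 : m ≤ volume.real (E ∩ Iic (T + 1)) := by
    have h1 : E ∩ Iic (T + 1) = E := inter_eq_left.2 fun z hz => (hET hz).2
    rw [h1]
    exact hmE
  have key : ∀ α β : ℝ, 0 ≤ α → α < β → β ≤ m →
      ∃ u ∈ E, α ≤ volume.real (E ∩ Iic u) ∧ volume.real (E ∩ Iic u) ≤ β := by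
    intro α β hα hαβ hβ
    have hiv := intermediate_value_Icc (by linarith : T ≤ T + 1)
      (F_cont hE hf).continuousOn
    obtain ⟨x0, -, hx0⟩ := hiv (⟨by linarith, by linarith⟩ :
      α ∈ Icc (volume.real (E ∩ Iic T)) (volume.real (E ∩ Iic (T + 1))))
    obtain ⟨x1, -, hx1⟩ := hiv (⟨by linarith, by linarith⟩ :
      β ∈ Icc (volume.real (E ∩ Iic T)) (volume.real (E ∩ Iic (T + 1))))
    have hx0' : volume.real (E ∩ Iic x0) = α := hx0
    have hx1' : volume.real (E ∩ Iic x1) = β := hx1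
    have hx : x0 ≤ x1 := by
      by_contra hcon
      have h1 := F_diff hE hf (not_le.1 hcon).le
      have h2 : 0 ≤ volume.real (E ∩ Ioc x1 x0) := measureReal_nonneg
      linarith
    have h1 := F_diff hE hf hx
    have h2 : 0 < volume.real (E ∩ Ioc x0 x1) := by linarith
    have h3 : (E ∩ Ioc x0 x1).Nonempty := by
      by_contra hcon
      rw [not_nonempty_iff_eq_empty.1 hcon] at h2
      simp at h2
    obtain ⟨u, hu, hu1⟩ := h3
    refine ⟨u, hu, ?_, ?_⟩
    · have h4 := F_diff hE hf hu1.1.le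
      have h5 : 0 ≤ volume.real (E ∩ Ioc x0 u) := measureReal_nonneg
      linarith
    · have h4 := F_diff hE hf hu1.2
      have h5 : 0 ≤ volume.real (E ∩ Ioc u x1) := measureReal_nonneg
      linarith
  have key2 : ∀ i : ℕ, ∃ u : ℝ, i ∈ Finset.range (K + 1) → u ∈ E ∧
      (i : ℝ) * (m / (K + 1)) ≤ volume.real (E ∩ Iic u) ∧
      volume.real (E ∩ Iic u) ≤ (i + 1 / 2) * (m / (K + 1)) := by
    intro i
    by_cases hi : i ∈ Finset.range (K + 1)
    · have hi1 : (i : ℝ) ≤ K := by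
        exact_mod_cast Nat.lt_succ_iff.1 (Finset.mem_range.1 hi)
      have hq : 0 < m / (K + 1) := div_pos hm hK
      have hq2 : (K + 1) * (m / (K + 1)) = m := by field_simp
      obtain ⟨u, hu, h1, h2⟩ := key ((i : ℝ) * (m / (K + 1))) ((i + 1 / 2) * (m / (K + 1)))
        (by positivity) (by nlinarith) (by nlinarith)
      exact ⟨u, fun _ => ⟨hu, h1, h2⟩⟩
    · exact ⟨0, fun h => absurd h hi⟩
  choose x hx using key2
  refine ⟨x, fun i hi => ⟨(hx i hi).1, ?_⟩⟩
  have main : ∀ i ∈ Finset.range (K + 1), ∀ j ∈ Finset.range (K + 1), j < i →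
      ((i : ℝ) - j) * (m / (2 * (K + 1))) ≤ x i - x j := by
    intro i hi j hj hji
    obtain ⟨-, a1, -⟩ := hx i hi
    obtain ⟨-, -, a2⟩ := hx j hj
    have hji1 : (j : ℝ) + 1 ≤ i := by exact_mod_cast hji
    have hq : 0 < m / (K + 1) := div_pos hm hK
    have hq2 : m / (2 * ((K : ℝ) + 1)) = m / (K + 1) / 2 := by field_simp
    have h1 : ((i : ℝ) - j) * (m / (2 * (K + 1))) ≤
        volume.real (E ∩ Iic (x i)) - volume.real (E ∩ Iic (x j)) := by
      rw [hq2]
      nlinarith
    have h0 : 0 < ((i : ℝ) - j) * (m / (2 * (K + 1))) := by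
      rw [hq2]
      have : 0 < (i : ℝ) - j := by linarith
      positivity
    have hle : x j ≤ x i := by
      by_contra hcon
      have h2 := F_diff hE hf (not_le.1 hcon).le
      have h3 : 0 ≤ volume.real (E ∩ Ioc (x i) (x j)) := measureReal_nonneg
      linarith
    have h2 := F_diff hE hf hle
    have h3 := F_le (E := E) hle
    linarith
  intro j hj
  rcases lt_trichotomy i j with h | h | h
  · have h1 := main j hj i hi h
    have h2 : (i : ℝ) < j := by exact_mod_cast h
    rw [abs_of_neg (by linarith : (i : ℝ) - j < 0), neg_sub]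
    exact h1.trans ((le_abs_self _).trans (abs_sub_comm _ _).le)
  · subst h
    simp
  · have h1 := main i hi j hj h
    have h2 : (j : ℝ) < i := by exact_mod_cast h
    rw [abs_of_pos (by linarith : (0 : ℝ) < (i : ℝ) - j)]
    exact h1.trans (le_abs_self _)

theorem z_eq (u : ℝ) : (2 : ℂ) ^ (-(1 / 2 + u * I) : ℂ) =
    ((Real.exp (-(Real.log 2) / 2) : ℝ) : ℂ) * exp (I * ((-(u * Real.log 2) : ℝ) : ℂ)) := by
  rw [cpow_def_of_ne_zero (by norm_num), Complex.ofReal_exp, ← Complex.exp_add]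
  congr 1
  have h : Complex.log 2 = ((Real.log 2 : ℝ) : ℂ) := by
    rw [Complex.ofReal_log (by norm_num)]
    norm_num
  rw [h]
  push_cast
  ring

theorem z_sub (u v : ℝ) : ‖(2 : ℂ) ^ (-(1 / 2 + u * I) : ℂ) - (2 : ℂ) ^ (-(1 / 2 + v * I) : ℂ)‖ =
    Real.exp (-(Real.log 2) / 2) * (2 * |Real.sin ((v - u) * Real.log 2 / 2)|) := by
  rw [z_eq, z_eq, ← mul_sub, norm_mul, Complex.norm_real, Real.norm_of_nonneg (Real.exp_pos _).le]
  congr 1
  have h1 : exp (I * ((-(u * Real.log 2) : ℝ) : ℂ)) - exp (I * ((-(v * Real.log 2) : ℝ) : ℂ)) =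
      exp (I * ((-(v * Real.log 2) : ℝ) : ℂ)) *
        (exp (I * (((v - u) * Real.log 2 : ℝ) : ℂ)) - 1) := by
    rw [mul_sub, mul_one, ← Complex.exp_add]
    congr 2
    push_cast
    ring
  rw [h1, norm_mul, Complex.norm_exp_I_mul_ofReal_sub_one]
  have h2 : ‖exp (I * ((-(v * Real.log 2) : ℝ) : ℂ))‖ = 1 := by
    rw [mul_comm]
    exact Complex.norm_exp_ofReal_mul_I _
  rw [h2, one_mul, Real.norm_eq_abs, abs_mul, abs_of_pos (by norm_num : (0 : ℝ) < 2)]

theorem ratio {u x y : ℝ} (h : |x - y| ≤ 1) (h0 : x ≠ y) :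
    ‖((2 : ℂ) ^ (-(1 / 2 + x * I) : ℂ) - (2 : ℂ) ^ (-(1 / 2 + y * I) : ℂ))⁻¹ *
      ((2 : ℂ) ^ (-(1 / 2 + u * I) : ℂ) - (2 : ℂ) ^ (-(1 / 2 + y * I) : ℂ))‖ ≤ 8 / |x - y| ∧
    (2 : ℂ) ^ (-(1 / 2 + x * I) : ℂ) ≠ (2 : ℂ) ^ (-(1 / 2 + y * I) : ℂ) := by
  have hxy : 0 < |x - y| := abs_pos.2 (sub_ne_zero.2 h0)
  have hL0 : 0.6931471803 < Real.log 2 := Real.log_two_gt_d9
  have hL1 : Real.log 2 < 0.6931471808 := Real.log_two_lt_d9
  have hr : 0 < Real.exp (-(Real.log 2) / 2) := Real.exp_pos _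
  have hpi : 3 < Real.pi := Real.pi_gt_three
  have hpi4 : Real.pi < 4 := by linarith [Real.pi_lt_d2]
  have h1 : |x - y| / 4 ≤ 2 * |Real.sin ((y - x) * Real.log 2 / 2)| := by
    have e1 : |(y - x) * Real.log 2 / 2| = |x - y| * (Real.log 2 / 2) := by
      rw [mul_div_assoc, abs_mul, abs_sub_comm y x, abs_of_pos (by linarith : 0 < Real.log 2 / 2)]
    have h2 := Real.mul_abs_le_abs_sin (x := (y - x) * Real.log 2 / 2) (by
      rw [e1]
      nlinarith)
    rw [e1] at h2
    have h3 : (1 : ℝ) / 2 ≤ 2 / Real.pi := by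
      rw [div_le_div_iff₀ (by norm_num) (by linarith)]
      linarith
    have h4 : |x - y| * (Real.log 2 / 2) * (1 / 2) ≤
        2 / Real.pi * (|x - y| * (Real.log 2 / 2)) := by
      rw [mul_comm (2 / Real.pi)]
      exact mul_le_mul_of_nonneg_left h3 (by positivity)
    nlinarith
  have h2 := z_sub x y
  have h3 : Real.exp (-(Real.log 2) / 2) * (|x - y| / 4) ≤
      ‖(2 : ℂ) ^ (-(1 / 2 + x * I) : ℂ) - (2 : ℂ) ^ (-(1 / 2 + y * I) : ℂ)‖ := by
    rw [h2]
    exact mul_le_mul_of_nonneg_left h1 hr.le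
  have h4 : ‖(2 : ℂ) ^ (-(1 / 2 + u * I) : ℂ) - (2 : ℂ) ^ (-(1 / 2 + y * I) : ℂ)‖ ≤
      Real.exp (-(Real.log 2) / 2) * 2 := by
    rw [z_sub]
    apply mul_le_mul_of_nonneg_left _ hr.le
    have := Real.abs_sin_le_one ((y - u) * Real.log 2 / 2)
    linarith
  have h5 : 0 < Real.exp (-(Real.log 2) / 2) * (|x - y| / 4) := by positivity
  constructor
  · rw [norm_mul, norm_inv, ← div_eq_inv_mul]
    calc ‖(2 : ℂ) ^ (-(1 / 2 + u * I) : ℂ) - (2 : ℂ) ^ (-(1 / 2 + y * I) : ℂ)‖ /
          ‖(2 : ℂ) ^ (-(1 / 2 + x * I) : ℂ) - (2 : ℂ) ^ (-(1 / 2 + y * I) : ℂ)‖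
        ≤ (Real.exp (-(Real.log 2) / 2) * 2) / (Real.exp (-(Real.log 2) / 2) * (|x - y| / 4)) :=
          div_le_div₀ (by positivity) h4 h5 h3
      _ = 8 / |x - y| := by
          field_simp
          norm_num
  · intro hcon
    rw [hcon, sub_self, norm_zero] at h3
    linarith

/-- the product of the distances -/
theorem prod_abs (i n : ℕ) : ∏ j ∈ Finset.range (i + n + 1),
    (if j = i then (1 : ℝ) else |(i : ℝ) - j|) = (i.factorial : ℝ) * n.factorial := by
  induction n with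
  | zero =>
    rw [add_zero, Finset.prod_range_succ, if_pos rfl, mul_one, Nat.factorial_zero, Nat.cast_one,
      mul_one, ← Finset.prod_range_add_one_eq_factorial, Nat.cast_prod, ← Finset.prod_range_reflect]
    refine Finset.prod_congr rfl fun j hj => ?_
    have hj1 := Finset.mem_range.1 hj
    have h1 : i - 1 - j ≠ i := by omega
    rw [if_neg h1]
    have h2 : ((i - 1 - j : ℕ) : ℝ) = (i : ℝ) - 1 - j := by
      rw [Nat.cast_sub (by omega), Nat.cast_sub (by omega)]
      simp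
    rw [h2]
    have h3 : (i : ℝ) - ((i : ℝ) - 1 - j) = j + 1 := by ring
    rw [h3, abs_of_nonneg (by positivity)]
    push_cast
    ring
  | succ n ih =>
    rw [← add_assoc, Finset.prod_range_succ, ih, if_neg (by omega), Nat.factorial_succ]
    have h3 : (i : ℝ) - ((i + n + 1 : ℕ) : ℝ) = -((n : ℝ) + 1) := by
      push_cast
      ring
    rw [h3, abs_neg, abs_of_nonneg (by positivity)]
    push_cast
    ring

theorem sum_inv (K : ℕ) : ∑ i ∈ Finset.range (K + 1),
    1 / ((i.factorial : ℝ) * (K - i).factorial) = 2 ^ K / K.factorial := by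
  have h1 : ∀ i ∈ Finset.range (K + 1), 1 / ((i.factorial : ℝ) * (K - i).factorial) =
      (K.choose i : ℝ) / K.factorial := by
    intro i hi
    have hi1 : i ≤ K := Nat.lt_succ_iff.1 (Finset.mem_range.1 hi)
    have h2 : (K.factorial : ℝ) ≠ 0 := by positivity
    rw [Nat.cast_choose ℝ hi1]
    field_simp
  rw [Finset.sum_congr rfl h1, ← Finset.sum_div]
  congr 1
  have h2 := Nat.sum_range_choose K
  exact_mod_cast h2

theorem pow_fact (K : ℕ) : ((K : ℝ) + 1) ^ K / K.factorial ≤ 3 ^ (K + 1) := by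
  have h1 := Real.pow_div_factorial_le_exp ((K : ℝ) + 1) (by positivity) K
  have h2 : Real.exp ((K : ℝ) + 1) ≤ 3 ^ (K + 1) := by
    have h3 : Real.exp ((K : ℝ) + 1) = Real.exp 1 ^ (K + 1) := by
      rw [← Real.exp_nat_mul]
      push_cast
      ring_nf
    rw [h3]
    exact pow_le_pow_left₀ (Real.exp_pos _).le (by linarith [Real.exp_one_lt_d9]) _
  exact h1.trans h2

/-- Lagrange interpolation and the norm bound -/
theorem lag (K : ℕ) (a : Fin (K + 1) → ℂ) {m S : ℝ} (hm : 0 < m) (x : ℕ → ℝ)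
    (hx : ∀ i ∈ Finset.range (K + 1), ∀ j ∈ Finset.range (K + 1), |x i - x j| ≤ 1)
    (hx2 : ∀ i ∈ Finset.range (K + 1), ∀ j ∈ Finset.range (K + 1),
      |(i : ℝ) - j| * (m / (2 * (K + 1))) ≤ |x i - x j|)
    (hS : ∀ i ∈ Finset.range (K + 1), ‖pp K a (x i)‖ ≤ S) (hS0 : 0 ≤ S) (u : ℝ) :
    ‖pp K a u‖ ≤ 3 * (96 / m) ^ K * S := by
  set z : ℝ → ℂ := fun u => (2 : ℂ) ^ (-(1 / 2 + u * I) : ℂ) with hz
  set p : Polynomial ℂ := ∑ j : Fin (K + 1), Polynomial.C (a j) * Polynomial.X ^ (j : ℕ) with hp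
  have hpe : ∀ u : ℝ, pp K a u = p.eval (z u) := by
    intro u
    rw [hp, Polynomial.eval_finsetSum]
    unfold pp
    refine Finset.sum_congr rfl fun j _ => ?_
    simp [hz]
  have hdeg : p.degree < (Finset.range (K + 1)).card := by
    rw [Finset.card_range, hp]
    refine (Polynomial.degree_sum_le _ _).trans_lt ?_
    rw [Finset.sup_lt_iff (by exact_mod_cast WithBot.bot_lt_coe _)]
    intro j _
    refine (Polynomial.degree_C_mul_X_pow_le _ _).trans_lt ?_
    exact_mod_cast j.2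
  have hne : ∀ i ∈ Finset.range (K + 1), ∀ j ∈ Finset.range (K + 1), i ≠ j → x i ≠ x j := by
    intro i hi j hj hij hcon
    have h1 := hx2 i hi j hj
    rw [hcon, sub_self, abs_zero] at h1
    have h2 : 0 < |(i : ℝ) - j| := abs_pos.2 (sub_ne_zero.2 (by exact_mod_cast hij))
    have h3 : 0 < |(i : ℝ) - j| * (m / (2 * (K + 1))) := by positivity
    linarith
  have hinj : Set.InjOn (fun i => z (x i)) (Finset.range (K + 1)) := by
    intro i hi j hj hij
    by_contra hcon
    have h0 := hne i hi j hj hcon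
    exact (ratio (u := 0) (hx i hi j hj) h0).2 hij
  have hlag := Lagrange.eq_interpolate_of_eval_eq (v := fun i => z (x i))
    (fun i => pp K a (x i)) hinj hdeg (fun i _ => (hpe (x i)).symm)
  rw [hpe u, hlag, Lagrange.interpolate_apply, Polynomial.eval_finsetSum]
  set c : ℝ := 16 * (K + 1) / m with hc
  have hc0 : 0 < c := by positivity
  have hterm : ∀ i ∈ Finset.range (K + 1),
      ‖Polynomial.eval (z u) (Polynomial.C (pp K a (x i)) *
        Lagrange.basis (Finset.range (K + 1)) (fun i => z (x i)) i)‖ ≤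
        S * (c ^ K * (1 / ((i.factorial : ℝ) * (K - i).factorial))) := by
    intro i hi
    have hi1 : i ≤ K := Nat.lt_succ_iff.1 (Finset.mem_range.1 hi)
    rw [Polynomial.eval_mul, Polynomial.eval_C, norm_mul]
    apply mul_le_mul (hS i hi) _ (norm_nonneg _) hS0
    unfold Lagrange.basis
    rw [Polynomial.eval_prod, norm_prod]
    have h1 : ∀ j ∈ (Finset.range (K + 1)).erase i,
        ‖Polynomial.eval (z u) (Lagrange.basisDivisor (z (x i)) (z (x j)))‖ ≤
          c / (if j = i then (1 : ℝ) else |(i : ℝ) - j|) := by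
      intro j hj
      have hji : j ≠ i := (Finset.mem_erase.1 hj).1
      have hj1 : j ∈ Finset.range (K + 1) := (Finset.mem_erase.1 hj).2
      have e1 : Polynomial.eval (z u) (Lagrange.basisDivisor (z (x i)) (z (x j))) =
          (z (x i) - z (x j))⁻¹ * (z u - z (x j)) := by
        unfold Lagrange.basisDivisor
        simp
      rw [e1, if_neg hji]
      refine (ratio (u := u) (hx i hi j hj1) (hne i hi j hj1 hji.symm)).1.trans ?_
      have h2 : 0 < |(i : ℝ) - j| :=
        abs_pos.2 (sub_ne_zero.2 (by exact_mod_cast hji.symm))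
      have h3 := hx2 i hi j hj1
      have h4 : 0 < |(i : ℝ) - j| * (m / (2 * (K + 1))) := by positivity
      calc 8 / |x i - x j| ≤ 8 / (|(i : ℝ) - j| * (m / (2 * (K + 1)))) :=
            div_le_div_of_nonneg_left (by norm_num) h4 h3
        _ = c / |(i : ℝ) - j| := by
            rw [hc]
            field_simp
            norm_num
    refine (Finset.prod_le_prod (fun j _ => norm_nonneg _) h1).trans (le_of_eq ?_)
    rw [Finset.prod_div_distrib, Finset.prod_const, Finset.card_erase_of_mem hi,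
      Finset.card_range, Nat.add_sub_cancel, Finset.prod_erase _ (by simp), div_eq_mul_one_div]
    congr 2
    have h2 := prod_abs i (K - i)
    rw [Nat.add_sub_cancel' hi1] at h2
    exact h2
  refine (norm_sum_le_of_le _ hterm).trans ?_
  rw [← Finset.mul_sum, ← Finset.mul_sum, sum_inv]
  have h3 := pow_fact K
  have h4 : c ^ K * (2 ^ K / (K.factorial : ℝ)) =
      (32 / m) ^ K * (((K : ℝ) + 1) ^ K / K.factorial) := by
    rw [hc, div_pow, div_pow, mul_pow]
    have : (32 : ℝ) ^ K = 16 ^ K * 2 ^ K := by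
      rw [← mul_pow]
      norm_num
    rw [this]
    ring
  rw [h4]
  calc S * ((32 / m) ^ K * (((K : ℝ) + 1) ^ K / K.factorial))
      ≤ S * ((32 / m) ^ K * 3 ^ (K + 1)) := by
        apply mul_le_mul_of_nonneg_left _ hS0
        exact mul_le_mul_of_nonneg_left h3 (by positivity)
    _ = 3 * (96 / m) ^ K * S := by
        have : (96 : ℝ) / m = 32 / m * 3 := by ring
        rw [this, mul_pow, pow_succ]
        ring

end RZ1_

/-- RZ1: Remez's inequality on the circle -/
theorem p_RZ1 : T_RZ1 := by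
  intro K a T m S E hE hET hm hmE hS u
  obtain ⟨x, hx⟩ := RZ1_.pts hE hET hm hmE K
  have h0 : 0 ∈ Finset.range (K + 1) := Finset.mem_range.2 (Nat.succ_pos K)
  apply RZ1_.lag K a hm x
  · intro i hi j hj
    have h1 := hET (hx i hi).1
    have h2 := hET (hx j hj).1
    rw [abs_le]
    constructor <;> linarith [h1.1, h1.2, h2.1, h2.2]
  · intro i hi j hj
    exact (hx i hi).2 j hj
  · intro i hi
    exact hS _ (hx i hi).1
  · exact (norm_nonneg _).trans (hS _ (hx 0 h0).1)

end Pool.Agent.NBR
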