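import Pool.Agent.NBR.Targets

/-!
# NBR, RZ2: the `L²` version of Remez's inequality on the circle
-/

set_option autoImplicit false

open MeasureTheory Complex Set Filter Topology
open scoped ENNReal InnerProductSpace ComplexConjugate

namespace Pool.Agent.NBR

open Pool.Agent.NBL

theorem RZ2_.cont (K : ℕ) (a : Fin (K + 1) → ℂ) : Continuous (pp K a) := by
  unfold pp
  apply continuous_finsetSum
  intro j _
  apply Continuous.mul continuous_const
  apply Continuous.pow
  apply Continuous.const_cpow
  · fun_prop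
  · exact Or.inl two_ne_zero

theorem p_RZ2 (h_RZ1 : T_RZ1) : T_RZ2 := by
  intro K a T m E hE hET hm hmE u
  have hfin : volume E ≠ ⊤ := by
    have h1 : volume E ≤ volume (Icc T (T + 1)) := measure_mono hET
    rw [Real.volume_Icc] at h1
    exact ne_top_of_le_ne_top ENNReal.ofReal_ne_top h1
  have hcont : Continuous (fun t => ‖pp K a t‖ ^ 2) := (RZ2_.cont K a).norm.pow 2
  have hint : IntegrableOn (fun t => ‖pp K a t‖ ^ 2) E :=
    (hcont.continuousOn.integrableOn_compact isCompact_Icc).mono_set hET
  have hpow : 0 < 6 * (192 / m) ^ K := by positivity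
  rcases (norm_nonneg (pp K a u)).eq_or_lt with h0 | h0
  · rw [← h0]
    have : (0 : ℝ) ≤ ∫ t in E, ‖pp K a t‖ ^ 2 :=
      integral_nonneg (fun t => by positivity)
    simpa using this
  · obtain ⟨θ, hθ⟩ : ∃ θ : ℝ, θ = ‖pp K a u‖ / (6 * (192 / m) ^ K) := ⟨_, rfl⟩
    rw [← hθ]
    have hθ0 : 0 < θ := by
      rw [hθ]
      exact div_pos h0 hpow
    obtain ⟨E₁, hE₁⟩ : ∃ E₁ : Set ℝ, E₁ = E ∩ {t | ‖pp K a t‖ ≤ θ} := ⟨_, rfl⟩
    have hE₁m : MeasurableSet E₁ := by
      rw [hE₁]
      exact hE.inter (isClosed_le (RZ2_.cont K a).norm continuous_const).measurableSet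
    have hsub : E₁ ⊆ E := by
      rw [hE₁]
      exact inter_subset_left
    have hlt : volume.real E₁ < m / 2 := by
      by_contra hge
      push Not at hge
      have h1 := h_RZ1 K a T (m / 2) θ E₁ hE₁m (hsub.trans hET) (by linarith) hge
        (fun t ht => by
          rw [hE₁] at ht
          exact ht.2) u
      have h2 : 96 / (m / 2) = 192 / m := by
        field_simp
        norm_num
      rw [h2] at h1
      have h3 : 3 * (192 / m) ^ K * θ = ‖pp K a u‖ / 2 := by
        rw [hθ]
        field_simp
        norm_num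
      rw [h3] at h1
      linarith
    have hdiff : m / 2 ≤ volume.real (E \ E₁) := by
      have h1 : volume.real (E \ E₁) = volume.real E - volume.real E₁ :=
        measureReal_sdiff hsub hE₁m hfin
      rw [h1]
      linarith
    have h4 : ∫ t in E \ E₁, ‖pp K a t‖ ^ 2 ≤ ∫ t in E, ‖pp K a t‖ ^ 2 :=
      setIntegral_mono_set hint (Eventually.of_forall fun t => by positivity)
        (sdiff_subset : E \ E₁ ⊆ E).eventuallyLE
    have h5 : ∫ _t in E \ E₁, θ ^ 2 ≤ ∫ t in E \ E₁, ‖pp K a t‖ ^ 2 := by
      apply setIntegral_mono_on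
      · exact integrableOn_const (ne_top_of_le_ne_top hfin (measure_mono sdiff_subset))
          enorm_ne_top
      · exact hint.mono_set sdiff_subset
      · exact hE.diff hE₁m
      · intro t ht
        apply pow_le_pow_left₀ hθ0.le
        by_contra hlt'
        push Not at hlt'
        apply ht.2
        rw [hE₁]
        exact ⟨ht.1, hlt'.le⟩
    rw [setIntegral_const, smul_eq_mul] at h5
    have h6 : m / 2 * θ ^ 2 ≤ volume.real (E \ E₁) * θ ^ 2 :=
      mul_le_mul_of_nonneg_right hdiff (by positivity)
    linarith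

end Pool.Agent.NBR
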