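import Pool.Agent.NBR.Targets
import Pool.Agent.Lib.ThickFailure

/-!
# The robust converse: zeta is large on half of a short interval
-/

set_option autoImplicit false

open MeasureTheory Complex Set Filter Topology
open scoped ENNReal InnerProductSpace ComplexConjugate

namespace Pool.Agent.NBR

open Pool.Agent.NBL

namespace THK_

theorem cont : Continuous fun t : ℝ => ‖riemannZeta (1 / 2 + t * I)‖ := by
  refine continuous_iff_continuousAt.2 fun t => ContinuousAt.norm ?_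
  have h1 : (1 / 2 + (t : ℂ) * I) ≠ 1 := by
    intro h
    have := congrArg Complex.re h
    norm_num at this
  have h2 : ContinuousAt riemannZeta (1 / 2 + (t : ℂ) * I) :=
    (differentiableAt_riemannZeta h1).continuousAt
  have h3 : ContinuousAt (fun t : ℝ => (1 / 2 + (t : ℂ) * I)) t := by fun_prop
  exact ContinuousAt.comp (f := fun t : ℝ => (1 / 2 + (t : ℂ) * I)) h2 h3

/-- the measure on consecutive intervals -/
theorem meas_sum {S : Set ℝ} (hS : MeasurableSet S) (T ρ : ℝ) (hρ : 0 ≤ ρ) (n : ℕ) :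
    volume.real (S ∩ Ico T (T + n * ρ)) =
      ∑ i ∈ Finset.range n, volume.real (S ∩ Ico (T + i * ρ) (T + i * ρ + ρ)) := by
  induction n with
  | zero => simp
  | succ n ih =>
    rw [Finset.sum_range_succ, ← ih]
    have h1 : Ico T (T + ((n + 1 : ℕ) : ℝ) * ρ) =
        Ico T (T + n * ρ) ∪ Ico (T + n * ρ) (T + n * ρ + ρ) := by
      rw [Ico_union_Ico_eq_Ico (by nlinarith [(Nat.cast_nonneg n : (0 : ℝ) ≤ n)]) (by linarith)]
      congr 1
      push_cast
      ring
    rw [h1, inter_union_distrib_left]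
    refine measureReal_union ?_ (hS.inter measurableSet_Ico) ?_ ?_
    · refine Disjoint.mono inter_subset_right inter_subset_right ?_
      exact Ico_disjoint_Ico_same
    · exact ne_top_of_le_ne_top measure_Ico_lt_top.ne (measure_mono inter_subset_right)
    · exact ne_top_of_le_ne_top measure_Ico_lt_top.ne (measure_mono inter_subset_right)

end THK_

open THK_ in
theorem p_THK : T_THK := by
  intro A hA hMu
  have h := (Pool.Agent.Lib.ThickFailure.result A hA).not.1 hMu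
  push Not at h
  obtain ⟨B', hB', h⟩ := h
  obtain ⟨δ, hδ, h⟩ := h (1 / 2) (by norm_num)
  obtain ⟨n, hn⟩ : ∃ n : ℕ, n = ⌈10 * δ⌉₊ := ⟨_, rfl⟩
  have hn0 : 0 < n := by
    rw [hn]
    exact Nat.ceil_pos.2 (by linarith)
  have hnR : (0 : ℝ) < n := by exact_mod_cast hn0
  have hnδ : 10 * δ ≤ n := by
    rw [hn]
    exact Nat.le_ceil _
  obtain ⟨ρ, hρ⟩ : ∃ ρ : ℝ, ρ = δ / n := ⟨_, rfl⟩
  have hρ0 : 0 < ρ := by
    rw [hρ]
    positivity
  have hnρ : n * ρ = δ := by
    rw [hρ]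
    field_simp
  refine ⟨(A + B') / 2, ρ, by linarith, hρ0, ?_, fun T₀ => ?_⟩
  · rw [hρ, div_le_iff₀ hnR]
    linarith
  obtain ⟨B, hB⟩ : ∃ B : ℝ, B = (A + B') / 2 := ⟨_, rfl⟩
  rw [← hB]
  have hB0 : 0 ≤ B := by linarith
  -- large `T`
  obtain ⟨T₁, hT₁⟩ := eventually_atTop.1 ((tendsto_rpow_atTop
    (by linarith : 0 < B' - B)).eventually (eventually_ge_atTop ((2 : ℝ) ^ B)))
  obtain ⟨T, hT, hTm⟩ := h (max (max T₀ T₁) (max 1 δ))
  have hT0 : T₀ ≤ T := ((le_max_left _ _).trans (le_max_left _ _)).trans hT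
  have hT1 : T₁ ≤ T := ((le_max_right _ _).trans (le_max_left _ _)).trans hT
  have hT2 : 1 ≤ T := ((le_max_left _ _).trans (le_max_right _ _)).trans hT
  have hT3 : δ ≤ T := ((le_max_right _ _).trans (le_max_right _ _)).trans hT
  have hTp : 0 < T := by linarith
  have hpow : ∀ x : ℝ, 0 ≤ x → x ≤ T + δ → x ^ B ≤ T ^ B' := by
    intro x hx0 hx
    calc x ^ B ≤ (2 * T) ^ B := Real.rpow_le_rpow hx0 (by linarith) hB0
      _ = 2 ^ B * T ^ B := Real.mul_rpow (by norm_num) hTp.le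
      _ ≤ T ^ (B' - B) * T ^ B := by
          gcongr
          exact hT₁ T hT1
      _ = T ^ B' := by
          rw [← Real.rpow_add hTp]
          congr 1
          ring
  obtain ⟨S, hS⟩ : ∃ S : Set ℝ, S = {t : ℝ | t ∈ Icc T (T + δ) ∧
    ‖riemannZeta (1 / 2 + t * I)‖ ≤ T ^ B'} := ⟨_, rfl⟩
  rw [← hS] at hTm
  have hSm : MeasurableSet S := by
    rw [hS]
    exact measurableSet_Icc.inter (isClosed_le cont continuous_const).measurableSet
  have hSfin : volume S ≠ ∞ := by
    refine ne_top_of_le_ne_top (measure_Icc_lt_top (a := T) (b := T + δ)).ne (measure_mono ?_)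
    rw [hS]
    exact fun t ht => ht.1
  obtain ⟨i, hi, hiS⟩ : ∃ i < n, volume.real (S ∩ Ico (T + i * ρ) (T + i * ρ + ρ)) < ρ / 2 := by
    by_contra hcon
    push Not at hcon
    have h1 : n * (ρ / 2) ≤ ∑ i ∈ Finset.range n,
        volume.real (S ∩ Ico (T + i * ρ) (T + i * ρ + ρ)) := by
      have := Finset.card_nsmul_le_sum (Finset.range n) (fun i : ℕ =>
        volume.real (S ∩ Ico (T + i * ρ) (T + i * ρ + ρ))) (ρ / 2)
        fun i hi => hcon i (Finset.mem_range.1 hi)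
      simpa using this
    rw [← meas_sum hSm T ρ hρ0.le n] at h1
    have h2 : volume.real (S ∩ Ico T (T + n * ρ)) ≤ volume.real S :=
      measureReal_mono inter_subset_left hSfin
    nlinarith
  obtain ⟨T', hT'⟩ : ∃ T' : ℝ, T' = T + i * ρ := ⟨_, rfl⟩
  rw [← hT'] at hiS
  have hi' : ((i : ℝ) + 1) * ρ ≤ δ := by
    rw [← hnρ]
    have : ((i : ℝ) + 1) ≤ n := by exact_mod_cast hi
    gcongr
  have hT'T : T ≤ T' := by
    rw [hT']
    have : 0 ≤ (i : ℝ) * ρ := by positivity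
    linarith
  have hT'δ : T' + ρ ≤ T + δ := by
    rw [hT']
    linarith
  refine ⟨T', hT0.trans hT'T, {t : ℝ | t ∈ Ico T' (T' + ρ) ∧
    T' ^ B ≤ ‖riemannZeta (1 / 2 + t * I)‖}, ?_, ?_, ?_, fun t ht => ht.2⟩
  · exact measurableSet_Ico.inter (isClosed_le continuous_const cont).measurableSet
  · exact fun t ht => Ico_subset_Icc_self ht.1
  · have h1 : Ico T' (T' + ρ) ⊆ {t : ℝ | t ∈ Ico T' (T' + ρ) ∧
        T' ^ B ≤ ‖riemannZeta (1 / 2 + t * I)‖} ∪ (S ∩ Ico T' (T' + ρ)) := by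
      intro t ht
      by_cases h2 : T' ^ B ≤ ‖riemannZeta (1 / 2 + t * I)‖
      · exact Or.inl ⟨ht, h2⟩
      · refine Or.inr ⟨?_, ht⟩
        rw [hS]
        refine ⟨⟨hT'T.trans ht.1, (ht.2.le).trans hT'δ⟩, ?_⟩
        exact (not_le.1 h2).le.trans (hpow T' (by linarith) (by linarith))
    have h3 : volume.real (Ico T' (T' + ρ)) ≤ volume.real ({t : ℝ | t ∈ Ico T' (T' + ρ) ∧
        T' ^ B ≤ ‖riemannZeta (1 / 2 + t * I)‖} ∪ (S ∩ Ico T' (T' + ρ))) := by
      refine measureReal_mono h1 (ne_top_of_le_ne_top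
        (measure_Ico_lt_top (μ := volume) (a := T') (b := T' + ρ)).ne (measure_mono ?_))
      rintro t (ht | ht)
      · exact ht.1
      · exact ht.2
    have h4 := h3.trans (measureReal_union_le _ _)
    rw [Real.volume_real_Ico_of_le (by linarith)] at h4
    linarith

end Pool.Agent.NBR
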