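import Pool.Agent.NBR.Targets
import Pool.Agent.NBM.P_LBK
import Pool.Agent.NBM.P_LBM
import Pool.Agent.NBM.P_PLN

/-!
# NBR: the test vector as a Dirichlet polynomial
-/

set_option autoImplicit false

open MeasureTheory Complex Set Filter Topology
open scoped ENNReal InnerProductSpace ComplexConjugate

namespace Pool.Agent.NBR

open Pool.Agent.NBL

namespace TSV_

lemma DPl_dcf (N : ℕ) (a : Fin N → ℂ) (s : ℂ) :
    DPl (N + 1) (dcf N (xa N a)) s = Nm N (xs N a) s := by
  unfold DPl Nm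
  rw [dcf_abel N (xa N a) fun k => (k : ℂ) ^ (-s)]
  refine Finset.sum_congr rfl fun n hn => ?_
  have h1 : (n : ℂ) * xa N a n = xs N a n := by
    unfold xa xs
    split_ifs <;> ring
  rw [h1]
  rfl

lemma quot (N : ℕ) (a : Fin N → ℂ) (u : ℝ) :
    ‖DPl (N + 1) (dcf N (xa N a)) (1 / 2 + u * I)‖ ^ 2 / (1 / 4 + u ^ 2) =
      ‖NBM.tr N a u‖ ^ 2 := by
  rw [DPl_dcf, NBM.tr, norm_div, div_pow, half_sq]

end TSV_

open TSV_ in
theorem p_TSV : T_TSV := by
  intro N t hN ht
  refine ⟨dcf (2 * N) (xa (2 * N) fun i => NBM.et N t i), fun u hu => ?_, ?_⟩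
  · rw [quot]
    have h := NBM.p_LBK N t u hN ht hu
    nlinarith
  · simp_rw [quot]
    have h1 := (NBM.p_PLN (2 * N) fun i => NBM.et N t i).2
    have h2 := (NBM.p_LBM N (by omega)).2 t
    have h3 : ∑ i, ‖NBM.et N t i‖ ^ 2 = ‖NBM.et N t‖ ^ 2 := (EuclideanSpace.norm_sq_eq _).symm
    rw [h3] at h1
    by_cases hm : AEStronglyMeasurable (fun u : ℝ => ‖NBM.tr (2 * N)
        (fun i => NBM.et N t i) u‖ ^ 2) volume
    · rw [integral_eq_lintegral_of_nonneg_ae (Eventually.of_forall fun u => by positivity) hm]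
      refine ENNReal.toReal_le_of_le_ofReal (by positivity) ?_
      have h4 : ∫⁻ u : ℝ, ENNReal.ofReal (‖NBM.tr (2 * N) (fun i => NBM.et N t i) u‖ ^ 2) =
          ∫⁻ u : ℝ, ‖NBM.tr (2 * N) (fun i => NBM.et N t i) u‖ₑ ^ 2 := by
        refine lintegral_congr fun u => ?_
        rw [ENNReal.ofReal_pow (norm_nonneg _), ofReal_norm]
      rw [h4]
      refine h1.trans (ENNReal.ofReal_le_ofReal ?_)
      nlinarith [Real.pi_pos]
    · rw [integral_non_aestronglyMeasurable hm]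
      positivity

end Pool.Agent.NBR
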