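import Pool.Agent.NBR.Glue
import Pool.Agent.NBR.P_RZ1
import Pool.Agent.NBR.P_RZ2
import Pool.Agent.NBR.P_THK
import Pool.Agent.NBR.P_MUL
import Pool.Agent.NBR.P_TSV
import Pool.Agent.NBR.P_INTb
import Pool.Agent.NBR.P_RC1
import Pool.Agent.NBR.P_RC2

namespace Pool.Agent.NBR

/-- the robust converse -/
theorem robust : T_RC2 :=
  p_RC2 p_THK (p_RC1 (p_RZ2 p_RZ1) p_MUL p_TSV p_INTb)

end Pool.Agent.NBR
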