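import Pool.Agent.NBR.Targets

/-!
# The robust form of the exponent criterion
-/

set_option autoImplicit false

open MeasureTheory Complex Set Filter Topology

namespace Pool.Agent.NBR

open Pool.Agent.NBL

/-- item (6) with exceptional subspaces of dimension `w(N)` -/
def Six (A : ℝ) (w : ℕ → ℝ) : Prop :=
  ∀ B : ℝ, A < B → B < 1 / 2 → ∃ C : ℝ, ∀ N : ℕ, ∃ V : Submodule ℂ (Fin N → ℂ),
    (N : ℝ) - w N ≤ Module.finrank ℂ V ∧ ∀ c ∈ V,
      ∫ t : ℝ, ‖riemannZeta (1 / 2 + t * Complex.I) * ∑ i : Fin N, c i *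
          (((i : ℕ) + 1 : ℕ) : ℂ) ^ (-(1 / 2 + t * Complex.I))‖ ^ 2 / (1 / 4 + t ^ 2) ≤
        C * (N : ℝ) ^ (2 * B) * ∫ t : ℝ, ‖∑ i : Fin N, c i *
          (((i : ℕ) + 1 : ℕ) : ℂ) ^ (-(1 / 2 + t * Complex.I))‖ ^ 2 / (1 / 4 + t ^ 2)

theorem six_iff (hRC2 : T_RC2) {A : ℝ} (hA : 0 ≤ A) (hA1 : A < 1 / 2) {w : ℕ → ℝ}
    (hw0 : ∀ N, 0 ≤ w N) (hw : Tendsto (fun N : ℕ => w N / Real.log N) atTop (𝓝 0)) :
    Mu A ↔ Six A w := by
  constructor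
  · intro h B hB hB1
    have h1 : ZDU A := (zdu_iff A).2 (nbu_of_besselSeq hA (besselSeq_of_bessel hA
      (bessel_of_mu hA hA1 h)))
    obtain ⟨C, hC⟩ := h1 B hB hB1
    refine ⟨C, fun N => ⟨⊤, ?_, fun c _ => ?_⟩⟩
    · rw [finrank_top, Module.finrank_fin_fun]
      have := hw0 N
      linarith
    · have h2 := hC N (xa N c)
      have e : ∀ s : ℂ, ∑ i : Fin N, c i * (((i : ℕ) + 1 : ℕ) : ℂ) ^ (-s) =
          ∑ n ∈ Finset.Icc 1 N, xa N c n * (n : ℂ) ^ (-s) := by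
        intro s
        rw [fin_sum fun n => xa N c n * (n : ℂ) ^ (-s)]
        exact Finset.sum_congr rfl fun i _ => by rw [xa_apply]
      simp_rw [e]
      exact h2
  · intro h
    exact hRC2 A hA hA1 w hw h

end Pool.Agent.NBR
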